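import Pool.Agent.Work.MP_85f59e_co.Asymp

namespace Pool.Agent.Work.MP_85f59e_co.Parked.EvenAsymptotic

open Pool.Agent.Work.MP_85f59e_co Filter Topology

/-- For every even `q ≥ 4`: `log₂ N_q(n) ~ (q/2)^(n-1)` as `n → ∞`. -/
theorem result (q : ℕ) (hq : 4 ≤ q) (he : Even q) :
    Tendsto (fun n : ℕ => Real.logb 2 (numMDS q n) / ((q : ℝ) / 2) ^ (n - 1)) atTop (𝓝 1) :=
  even_ratio q (by omega) he

end Pool.Agent.Work.MP_85f59e_co.Parked.EvenAsymptotic
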